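import Pool.Agent.helper37.L5.SpecE

set_option autoImplicit false

namespace Pool.Agent.L5

theorem EJ5 : EJ5_stmt := by
  intro p n m v hp hn hm hpn hmn hJ
  have hpm : ¬ p ∣ m := fun h => hpn (hmn p hp h)
  refine ⟨hpm, fun h => hJ ?_⟩
  unfold Pool.Agent.MAPW.J2 at h ⊢
  rw [Finset.prod_mul_distrib] at h ⊢
  have hcop : Nat.Coprime (p ^ v) (∏ l ∈ m.primeFactors, l ^ (2 * (m.factorization l - 1))) := by
    refine Nat.Coprime.prod_right fun l hl => ?_
    have hl1 : l.Prime := Nat.prime_of_mem_primeFactors hl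
    have hl2 : l ∣ m := Nat.dvd_of_mem_primeFactors hl
    have hne : p ≠ l := fun h0 => hpm (h0 ▸ hl2)
    exact Nat.Coprime.pow _ _ ((Nat.coprime_primes hp hl1).2 hne)
  have h1 : p ^ v ∣ ∏ l ∈ m.primeFactors, (l ^ 2 - 1) := hcop.dvd_of_dvd_mul_left h
  have hsub : m.primeFactors ⊆ n.primeFactors := by
    intro l hl
    have hl1 : l.Prime := Nat.prime_of_mem_primeFactors hl
    exact Nat.mem_primeFactors.2 ⟨hl1, hmn l hl1 (Nat.dvd_of_mem_primeFactors hl), hn.ne'⟩
  exact (h1.trans (Finset.prod_dvd_prod_of_subset _ _ _ hsub)).mul_left _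

end Pool.Agent.L5
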